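import Pool.Agent.W716.FV.StmA

set_option autoImplicit false

open MeasureTheory Filter Topology Set

namespace Pool.Agent.W293.FV

open Pool.Agent.W716.FV

theorem kd_nonneg (x : ℝ) : 0 ≤ kd x := by
  unfold kd
  have := Real.pi_pos
  positivity

theorem kd_cont : Continuous kd := by
  unfold kd
  refine continuous_const.div (by fun_prop) fun x => ?_
  positivity

theorem kd_meas : Measurable (fun x => ENNReal.ofReal (kd x)) :=
  kd_cont.measurable.ennreal_ofReal

theorem int_nu (f : ℝ → ℝ) : ∫ x, f x ∂nu = ∫ x, kd x * f x := by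
  unfold nu
  rw [integral_withDensity_eq_integral_toReal_smul kd_meas
    (Eventually.of_forall fun x => ENNReal.ofReal_lt_top)]
  refine integral_congr_ae (Eventually.of_forall fun x => ?_)
  simp only [ENNReal.toReal_ofReal (kd_nonneg x), smul_eq_mul]

theorem integrable_nu_iff (f : ℝ → ℝ) : Integrable f nu ↔ Integrable (fun x => kd x * f x) := by
  unfold nu
  rw [integrable_withDensity_iff kd_meas (Eventually.of_forall fun x => ENNReal.ofReal_lt_top)]
  refine integrable_congr (Eventually.of_forall fun x => ?_)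
  simp only [ENNReal.toReal_ofReal (kd_nonneg x)]
  ring

theorem J_int (m : ℕ) : Integrable (fun x : ℝ => ((1 + x ^ 2) ^ (m + 1))⁻¹) := by
  refine integrable_inv_one_add_sq.mono' ?_ (Eventually.of_forall fun x => ?_)
  · refine Continuous.aestronglyMeasurable ?_
    refine Continuous.inv₀ (by fun_prop) fun x => ?_
    positivity
  · have h1 : (1 : ℝ) ≤ 1 + x ^ 2 := by nlinarith [sq_nonneg x]
    rw [Real.norm_of_nonneg (by positivity)]
    have h2 : (1 + x ^ 2) ^ 1 ≤ (1 + x ^ 2) ^ (m + 1) := pow_le_pow_right₀ h1 (by omega)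
    rw [pow_one] at h2
    exact inv_anti₀ (by positivity) h2

theorem J_rec (m : ℕ) : (2 * (m + 1) : ℝ) * ∫ x : ℝ, ((1 + x ^ 2) ^ (m + 2))⁻¹ =
    (2 * m + 1) * ∫ x : ℝ, ((1 + x ^ 2) ^ (m + 1))⁻¹ := by
  have hd : ∀ x : ℝ, HasDerivAt (fun x : ℝ => x * ((1 + x ^ 2) ^ (m + 1))⁻¹)
      ((2 * (m + 1) : ℝ) * ((1 + x ^ 2) ^ (m + 2))⁻¹ - (2 * m + 1) * ((1 + x ^ 2) ^ (m + 1))⁻¹) x := by
    intro x
    have hp : (1 + x ^ 2) ^ (m + 1) ≠ 0 := by positivity
    have h0 : (1 + x ^ 2) ≠ 0 := by positivity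
    have h1 : HasDerivAt (fun x : ℝ => (1 + x ^ 2) ^ (m + 1))
        (((m + 1 : ℕ) : ℝ) * (1 + x ^ 2) ^ m * (2 * x)) x := by
      have h2 : HasDerivAt (fun x : ℝ => 1 + x ^ 2) (2 * x) x := by
        simpa using (hasDerivAt_pow 2 x).const_add 1
      simpa using h2.fun_pow (m + 1)
    have h3 := (hasDerivAt_id x).mul (h1.inv hp)
    refine h3.congr_deriv ?_
    simp only [id, one_mul, Pi.inv_apply]
    push_cast
    field_simp
    ring
  have hb : ∀ x : ℝ, |x * ((1 + x ^ 2) ^ (m + 1))⁻¹| ≤ |x|⁻¹ := by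
    intro x
    rcases eq_or_ne x 0 with rfl | hx
    · simp
    · have hxp : 0 < |x| := abs_pos.2 hx
      rw [abs_mul, abs_of_nonneg (show 0 ≤ ((1 + x ^ 2) ^ (m + 1))⁻¹ by positivity)]
      have h1 : (1 : ℝ) ≤ 1 + x ^ 2 := by nlinarith [sq_nonneg x]
      have h2 : (1 + x ^ 2) ^ 1 ≤ (1 + x ^ 2) ^ (m + 1) := pow_le_pow_right₀ h1 (by omega)
      rw [pow_one] at h2
      have h3 : |x| * |x| ≤ (1 + x ^ 2) ^ (m + 1) := by
        rw [abs_mul_abs_self]
        nlinarith
      rw [← div_eq_mul_inv, div_le_iff₀ (by positivity), inv_mul_eq_div, le_div_iff₀ hxp]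
      exact h3
  have hlim : ∀ l : Filter ℝ, Tendsto (fun x : ℝ => |x|⁻¹) l (𝓝 0) →
      Tendsto (fun x : ℝ => x * ((1 + x ^ 2) ^ (m + 1))⁻¹) l (𝓝 0) := fun l hl =>
    squeeze_zero_norm hb hl
  have h1 := integral_of_hasDerivAt_of_tendsto hd
    (((J_int (m + 1)).const_mul _).sub ((J_int m).const_mul _))
    (hlim _ (tendsto_inv_atTop_zero.comp tendsto_abs_atBot_atTop))
    (hlim _ (tendsto_inv_atTop_zero.comp tendsto_abs_atTop_atTop))
  rw [integral_sub ((J_int (m + 1)).const_mul _) ((J_int m).const_mul _),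
    integral_const_mul, integral_const_mul] at h1
  linarith

theorem J1 : ∫ x : ℝ, ((1 + x ^ 2) ^ 1)⁻¹ = Real.pi := by
  simp only [pow_one]
  exact integral_univ_inv_one_add_sq

theorem J2 : ∫ x : ℝ, ((1 + x ^ 2) ^ 2)⁻¹ = Real.pi / 2 := by
  have h := J_rec 0
  norm_num at h
  linarith

theorem J3 : ∫ x : ℝ, ((1 + x ^ 2) ^ 3)⁻¹ = 3 * Real.pi / 8 := by
  have h := J_rec 1
  norm_num at h
  rw [J2] at h
  linarith

theorem J4 : ∫ x : ℝ, ((1 + x ^ 2) ^ 4)⁻¹ = 5 * Real.pi / 16 := by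
  have h := J_rec 2
  norm_num at h
  rw [J3] at h
  linarith

theorem kd_eq (x : ℝ) : kd x = 8 / (3 * Real.pi) * ((1 + x ^ 2) ^ 3)⁻¹ := by
  unfold kd
  rw [div_eq_mul_inv]

theorem nu_prob : IsProbabilityMeasure nu := by
  constructor
  unfold nu
  rw [withDensity_apply _ MeasurableSet.univ, Measure.restrict_univ,
    ← ofReal_integral_eq_lintegral_ofReal]
  · simp_rw [kd_eq]
    rw [integral_const_mul, J3]
    have := Real.pi_pos
    rw [show 8 / (3 * Real.pi) * (3 * Real.pi / 8) = 1 by field_simp]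
    simp
  · exact ((J_int 2).const_mul _).congr (Eventually.of_forall fun x => (kd_eq x).symm)
  · exact Eventually.of_forall kd_nonneg

theorem main : KappaMoments := by
  have hpi := Real.pi_pos
  refine ⟨nu_prob, ?_, ?_, ?_, ?_, ?_⟩
  · rw [integrable_nu_iff]
    refine ((integrable_inv_one_add_sq).const_mul (8 / (3 * Real.pi))).mono' ?_
      (Eventually.of_forall fun x => ?_)
    · exact (kd_cont.mul (continuous_pow 4)).aestronglyMeasurable
    · rw [Real.norm_of_nonneg (mul_nonneg (kd_nonneg x) (by positivity)), kd_eq, mul_assoc]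
      refine mul_le_mul_of_nonneg_left ?_ (by positivity)
      rw [inv_mul_eq_div, ← one_div, div_le_div_iff₀ (by positivity) (by positivity)]
      nlinarith [sq_nonneg x, sq_nonneg (x ^ 2), mul_nonneg (sq_nonneg x) (sq_nonneg (x ^ 2))]
  · rw [int_nu]
    have h1 : ∫ x : ℝ, kd x * x = ∫ x : ℝ, kd (-x) * (-x) := by
      rw [← integral_neg_eq_self (fun x : ℝ => kd x * x)]
    have h2 : ∀ x : ℝ, kd (-x) * (-x) = -(kd x * x) := by
      intro x
      unfold kd
      rw [neg_sq]
      ring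
    simp_rw [h2] at h1
    rw [integral_neg] at h1
    linarith
  · rw [int_nu]
    have h1 : ∀ x : ℝ, kd x * x ^ 2 = 8 / (3 * Real.pi) * ((1 + x ^ 2) ^ 2)⁻¹ -
        8 / (3 * Real.pi) * ((1 + x ^ 2) ^ 3)⁻¹ := by
      intro x
      rw [kd_eq]
      have : (1 + x ^ 2) ≠ 0 := by positivity
      field_simp
      ring
    simp_rw [h1]
    rw [integral_sub ((J_int 1).const_mul _) ((J_int 2).const_mul _), integral_const_mul,
      integral_const_mul, J2, J3]
    field_simp
    ring
  · rw [int_nu]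
    have h1 : ∀ x : ℝ, kd x * |x| = (fun y : ℝ => kd y * y) |x| := by
      intro x
      show kd x * |x| = kd |x| * |x|
      unfold kd
      rw [sq_abs]
    simp_rw [h1]
    rw [integral_comp_abs (f := fun y : ℝ => kd y * y)]
    have hd : ∀ x ∈ Ici (0 : ℝ), HasDerivAt (fun x : ℝ => -(2 / (3 * Real.pi)) * ((1 + x ^ 2) ^ 2)⁻¹)
        (kd x * x) x := by
      intro x _
      have hp : (1 + x ^ 2) ^ 2 ≠ 0 := by positivity
      have h2 : HasDerivAt (fun x : ℝ => 1 + x ^ 2) (2 * x) x := by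
        simpa using (hasDerivAt_pow 2 x).const_add 1
      have h3 : HasDerivAt (fun x : ℝ => (1 + x ^ 2) ^ 2) (2 * (1 + x ^ 2) * (2 * x)) x := by
        simpa using h2.fun_pow 2
      refine ((h3.inv hp).const_mul (-(2 / (3 * Real.pi)))).congr_deriv ?_
      rw [kd_eq]
      field_simp
      ring
    have hint : IntegrableOn (fun x : ℝ => kd x * x) (Ioi 0) := by
      have : Integrable (fun x : ℝ => kd x * x) := by
        refine ((integrable_inv_one_add_sq).const_mul (8 / (3 * Real.pi))).mono' ?_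
          (Eventually.of_forall fun x => ?_)
        · exact (kd_cont.mul continuous_id).aestronglyMeasurable
        · rw [norm_mul, Real.norm_of_nonneg (kd_nonneg x), kd_eq, mul_assoc]
          refine mul_le_mul_of_nonneg_left ?_ (by positivity)
          rw [inv_mul_eq_div, ← one_div, div_le_div_iff₀ (by positivity) (by positivity),
            Real.norm_eq_abs]
          have h4 : |x| ≤ 1 + x ^ 2 := by
            rcases abs_cases x with ⟨h, _⟩ | ⟨h, _⟩ <;> rw [h] <;> nlinarith [sq_nonneg (x - 1), sq_nonneg (x + 1)]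
          have h5 : (0 : ℝ) ≤ 1 + x ^ 2 := by positivity
          have h6 : (1 + x ^ 2) * (1 + x ^ 2) ≤ (1 + x ^ 2) ^ 3 := by
            nlinarith [sq_nonneg x, mul_nonneg h5 h5]
          nlinarith [mul_le_mul_of_nonneg_right h4 h5]
      exact this.integrableOn
    have hlim : Tendsto (fun x : ℝ => -(2 / (3 * Real.pi)) * ((1 + x ^ 2) ^ 2)⁻¹) atTop (𝓝 0) := by
      have h2 : Tendsto (fun x : ℝ => (1 + x ^ 2) ^ 2) atTop atTop := by
        refine tendsto_atTop_mono (fun x => ?_) (tendsto_pow_atTop (n := 2) (by norm_num) :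
          Tendsto (fun x : ℝ => x ^ 2) atTop atTop)
        nlinarith [sq_nonneg x, sq_nonneg (x ^ 2)]
      simpa using (tendsto_inv_atTop_zero.comp h2).const_mul (-(2 / (3 * Real.pi)))
    rw [integral_Ioi_of_hasDerivAt_of_tendsto' hd hint hlim]
    norm_num
    field_simp
    ring
  · rw [int_nu]
    have h1 : ∀ x : ℝ, kd x * (x ^ 2 / (1 + x ^ 2)) = 8 / (3 * Real.pi) * ((1 + x ^ 2) ^ 3)⁻¹ -
        8 / (3 * Real.pi) * ((1 + x ^ 2) ^ 4)⁻¹ := by
      intro x
      rw [kd_eq]
      have : (1 + x ^ 2) ≠ 0 := by positivity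
      field_simp
      ring
    simp_rw [h1]
    rw [integral_sub ((J_int 2).const_mul _) ((J_int 3).const_mul _), integral_const_mul,
      integral_const_mul, J3, J4]
    field_simp
    ring

end Pool.Agent.W293.FV
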