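import Pool.Agent.W716.FV.StmA
import Pool.Agent.W293.FV.KM

set_option autoImplicit false

open MeasureTheory Filter Topology Set

namespace Pool.Agent.W293.FV.KS

open Pool.Agent.W716.FV Pool.Agent.W293.FV

/-- the weight -/
noncomputable def w (x : ℝ) : ℝ := 2 / (3 * Real.pi) * ((1 + x ^ 2) ^ 2)⁻¹

theorem w_deriv (x : ℝ) : HasDerivAt w (-(kd x * x)) x := by
  have hpi := Real.pi_pos
  have hp : (1 + x ^ 2) ^ 2 ≠ 0 := by positivity
  have h2 : HasDerivAt (fun x : ℝ => 1 + x ^ 2) (2 * x) x := by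
    simpa using (hasDerivAt_pow 2 x).const_add 1
  have h3 : HasDerivAt (fun x : ℝ => (1 + x ^ 2) ^ 2) (2 * (1 + x ^ 2) * (2 * x)) x := by
    simpa using h2.fun_pow 2
  refine ((h3.inv hp).const_mul (2 / (3 * Real.pi))).congr_deriv ?_
  rw [kd_eq]
  field_simp
  ring

theorem w_contDiff : ContDiff ℝ 1 w := by
  unfold w
  refine contDiff_const.mul (ContDiff.inv (by fun_prop) fun x => ?_)
  positivity

theorem w_int : Integrable w := (J_int 1).const_mul _

theorem w_nonneg (x : ℝ) : 0 ≤ w x := by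
  unfold w
  have hpi := Real.pi_pos
  positivity

theorem main : KappaStein := by
  intro F L hF
  have hpi := Real.pi_pos
  have hL : 0 ≤ L := by
    have := hF 1 0
    have h2 := (abs_nonneg _).trans this
    simpa using h2
  have hlip : LipschitzWith L.toNNReal F := LipschitzWith.of_dist_le_mul fun x y => by
    rw [Real.dist_eq, Real.dist_eq, Real.coe_toNNReal L hL]
    exact hF x y
  have hFc : Continuous F := hlip.continuous
  have hFb : ∀ x, |F x| ≤ |F 0| + L * |x| := by
    intro x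
    have h1 := hF x 0
    rw [sub_zero] at h1
    have h2 := abs_sub_abs_le_abs_sub (F x) (F 0)
    linarith
  have hdb : ∀ x, ‖deriv F x‖ ≤ L := by
    intro x
    have h1 : ‖deriv F x‖ ≤ L.toNNReal := norm_deriv_le_of_lipschitz hlip
    rwa [Real.coe_toNNReal L hL] at h1
  have hderiv : deriv w = fun x => -(kd x * x) := funext fun x => (w_deriv x).deriv
  have i1 : Integrable (fun x => deriv F x * w x) := by
    refine w_int.bdd_mul (measurable_deriv F).aestronglyMeasurable
      (Eventually.of_forall fun x => hdb x)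
  have i2 : Integrable (fun x => F x * deriv w x) := by
    rw [hderiv]
    refine ((integrable_inv_one_add_sq).const_mul (8 / (3 * Real.pi) * (|F 0| + L))).mono' ?_
      (Eventually.of_forall fun x => ?_)
    · exact (hFc.mul (kd_cont.mul continuous_id).neg).aestronglyMeasurable
    · rw [norm_mul, norm_neg, norm_mul, Real.norm_eq_abs, Real.norm_eq_abs, Real.norm_eq_abs,
        abs_of_nonneg (kd_nonneg x), kd_eq]
      have h0 := hFb x
      have h1 : (0 : ℝ) ≤ |x| := abs_nonneg x
      have h2 : |x| ^ 2 = x ^ 2 := sq_abs x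
      have h3 : (|F 0| + L * |x|) * |x| ≤ (|F 0| + L) * (1 + x ^ 2) := by
        have h4 : |x| ≤ 1 + x ^ 2 := by nlinarith [sq_nonneg (|x| - 1)]
        have h5 : 0 ≤ |F 0| := abs_nonneg _
        nlinarith
      have h6 : |F x| * |x| ≤ (|F 0| + L) * (1 + x ^ 2) :=
        (mul_le_mul_of_nonneg_right h0 h1).trans h3
      have h7 : (0 : ℝ) < 1 + x ^ 2 := by positivity
      have h8 : (1 + x ^ 2) * ((1 + x ^ 2) ^ 3)⁻¹ ≤ (1 + x ^ 2)⁻¹ := by
        rw [← div_eq_mul_inv, ← one_div, div_le_div_iff₀ (by positivity) h7]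
        have h9 : (1 : ℝ) ≤ 1 + x ^ 2 := by nlinarith [sq_nonneg x]
        nlinarith [pow_le_pow_right₀ h9 (show 2 ≤ 3 by norm_num)]
      have h10 : 0 ≤ ((1 + x ^ 2) ^ 3)⁻¹ := by positivity
      have h11 : |F x| * |x| * ((1 + x ^ 2) ^ 3)⁻¹ ≤ (|F 0| + L) * (1 + x ^ 2)⁻¹ := by
        refine (mul_le_mul_of_nonneg_right h6 h10).trans ?_
        rw [mul_assoc]
        exact mul_le_mul_of_nonneg_left h8 (by positivity)
      have h12 : (0 : ℝ) ≤ 8 / (3 * Real.pi) := by positivity
      calc |F x| * (8 / (3 * Real.pi) * ((1 + x ^ 2) ^ 3)⁻¹ * |x|)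
          = 8 / (3 * Real.pi) * (|F x| * |x| * ((1 + x ^ 2) ^ 3)⁻¹) := by ring
        _ ≤ 8 / (3 * Real.pi) * ((|F 0| + L) * (1 + x ^ 2)⁻¹) :=
            mul_le_mul_of_nonneg_left h11 h12
        _ = _ := by ring
  have hlimw : ∀ l : Filter ℝ, Tendsto (fun x : ℝ => |x|⁻¹) l (𝓝 0) →
      (∀ᶠ x in l, 1 ≤ |x|) → Tendsto (fun x : ℝ => F x * w x) l (𝓝 0) := by
    intro l hl hl1
    have h1 : Tendsto (fun x : ℝ => (|F 0| + L) * |x|⁻¹) l (𝓝 0) := by
      simpa using hl.const_mul (|F 0| + L)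
    refine squeeze_zero_norm' ?_ h1
    filter_upwards [hl1] with x hx
    rw [norm_mul, Real.norm_eq_abs, Real.norm_of_nonneg (w_nonneg x)]
    have h0 := hFb x
    have h5 : 0 ≤ |F 0| := abs_nonneg _
    have h6 : |F x| ≤ (|F 0| + L) * |x| := by nlinarith
    have h7 : w x ≤ (|x| ^ 2)⁻¹ := by
      unfold w
      have h8 : 2 / (3 * Real.pi) ≤ 1 := by
        rw [div_le_one (by positivity)]
        have := Real.pi_gt_three
        linarith
      have h9 : ((1 + x ^ 2) ^ 2)⁻¹ ≤ (|x| ^ 2)⁻¹ := by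
        rw [sq_abs]
        have h10 : 0 < x ^ 2 := by
          have : 0 < |x| := by linarith
          rw [← sq_abs]
          positivity
        exact inv_anti₀ h10 (by nlinarith [sq_nonneg (x ^ 2)])
      calc 2 / (3 * Real.pi) * ((1 + x ^ 2) ^ 2)⁻¹ ≤ 1 * ((1 + x ^ 2) ^ 2)⁻¹ :=
            mul_le_mul_of_nonneg_right h8 (by positivity)
        _ ≤ _ := by rw [one_mul]; exact h9
    have hx0 : 0 < |x| := by linarith
    calc |F x| * w x ≤ ((|F 0| + L) * |x|) * (|x| ^ 2)⁻¹ :=
          mul_le_mul h6 h7 (w_nonneg x) (by positivity)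
      _ = (|F 0| + L) * |x|⁻¹ := by
          field_simp
  have hA : ∀ A : ℝ, ∫ x in (-A)..A, deriv F x * w x + F x * deriv w x =
      F A * w A - F (-A) * w (-A) := by
    intro A
    exact (hlip.lipschitzOnWith.absolutelyContinuousOnInterval).integral_deriv_mul_eq_sub
      (w_contDiff.contDiffOn.absolutelyContinuousOnInterval)
  have h1 := intervalIntegral_tendsto_integral (i1.add i2) tendsto_neg_atTop_atBot tendsto_id
  have h2 : Tendsto (fun A : ℝ => F A * w A - F (-A) * w (-A)) atTop (𝓝 (0 - 0)) := by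
    refine Tendsto.sub ?_ ?_
    · exact hlimw atTop (tendsto_inv_atTop_zero.comp tendsto_abs_atTop_atTop)
        (tendsto_abs_atTop_atTop.eventually_ge_atTop 1)
    · exact (hlimw atBot (tendsto_inv_atTop_zero.comp tendsto_abs_atBot_atTop)
        (tendsto_abs_atBot_atTop.eventually_ge_atTop 1)).comp tendsto_neg_atTop_atBot
  have h3 := tendsto_nhds_unique h1 (h2.congr fun A => (hA A).symm)
  rw [integral_add' i1 i2, sub_zero] at h3
  rw [int_nu, int_nu]
  have e1 : ∫ x : ℝ, kd x * (x * F x) = -∫ x : ℝ, F x * deriv w x := by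
    rw [← integral_neg]
    refine integral_congr_ae (Eventually.of_forall fun x => ?_)
    simp only [hderiv]
    ring
  have e2 : ∫ x : ℝ, kd x * ((1 + x ^ 2) * deriv F x) = 4 * ∫ x : ℝ, deriv F x * w x := by
    rw [← integral_const_mul]
    refine integral_congr_ae (Eventually.of_forall fun x => ?_)
    simp only [kd_eq, w]
    have : (1 + x ^ 2) ≠ 0 := by positivity
    field_simp
    ring
  rw [e1, e2]
  linarith

end Pool.Agent.W293.FV.KS
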