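import Pool.Agent.W716.FV.StmA

set_option autoImplicit false

open MeasureTheory Filter Topology Set

namespace Pool.Agent.W293.FV.OV

open Pool.Agent.W716.FV

/-- Cauchy-Schwarz -/
theorem cs {α : Type} [MeasurableSpace α] {μ : Measure α} {f g : α → ℝ} (hf0 : ∀ x, 0 ≤ f x)
    (hg0 : ∀ x, 0 ≤ g x) (hfm : AEStronglyMeasurable f μ) (hgm : AEStronglyMeasurable g μ)
    (hf : Integrable (fun x => f x ^ 2) μ) (hg : Integrable (fun x => g x ^ 2) μ) :
    Integrable (fun x => f x * g x) μ ∧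
      ∫ x, f x * g x ∂μ ≤ √(∫ x, f x ^ 2 ∂μ) * √(∫ x, g x ^ 2 ∂μ) := by
  have mf : MemLp f 2 μ := (memLp_two_iff_integrable_sq hfm).2 hf
  have mg : MemLp g 2 μ := (memLp_two_iff_integrable_sq hgm).2 hg
  refine ⟨mf.integrable_mul mg, ?_⟩
  have h := integral_mul_le_Lp_mul_Lq_of_nonneg (μ := μ) Real.HolderConjugate.two_two
    (Eventually.of_forall hf0) (Eventually.of_forall hg0) (by simpa using mf) (by simpa using mg)
  rw [Real.sqrt_eq_rpow, Real.sqrt_eq_rpow]
  simpa using h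

variable {n : ℕ}

theorem gd_nonneg (x : E n) : 0 ≤ gd n x := by
  unfold gd
  positivity

theorem gd_cont : Continuous (gd n) := by
  unfold gd
  fun_prop

theorem gd_meas : Measurable (fun x : E n => ENNReal.ofReal (gd n x)) :=
  gd_cont.measurable.ennreal_ofReal

theorem int_gam {F : Type} [NormedAddCommGroup F] [NormedSpace ℝ F] (f : E n → F) :
    ∫ x, f x ∂(gam n) = ∫ x, gd n x • f x := by
  unfold gam
  rw [integral_withDensity_eq_integral_toReal_smul gd_meas
    (Eventually.of_forall fun x => ENNReal.ofReal_lt_top)]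
  refine integral_congr_ae (Eventually.of_forall fun x => ?_)
  simp only [ENNReal.toReal_ofReal (gd_nonneg x)]

theorem int_shift {F : Type} [NormedAddCommGroup F] [NormedSpace ℝ F] (f : E n → F) (c : E n) :
    ∫ x, f (x + c) ∂(gam n) = ∫ x, gd n (x - c) • f x := by
  rw [int_gam, ← integral_sub_right_eq_self (fun x => gd n x • f (x + c)) c]
  simp only [sub_add_cancel]

theorem gd_int (hGM : GaussMoments) : Integrable (gd n) ∧ ∫ x : E n, gd n x = 1 := by
  have hp : IsProbabilityMeasure (gam n) := (hGM n).1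
  have h1 : ∫⁻ x : E n, ENNReal.ofReal (gd n x) = 1 := by
    have := hp.measure_univ
    unfold gam at this
    rwa [withDensity_apply _ MeasurableSet.univ, Measure.restrict_univ] at this
  have hi : Integrable (gd n) := by
    refine ⟨gd_cont.aestronglyMeasurable, ?_⟩
    rw [hasFiniteIntegral_iff_ofReal (Eventually.of_forall gd_nonneg), h1]
    exact ENNReal.one_lt_top
  refine ⟨hi, ?_⟩
  rw [integral_eq_lintegral_of_nonneg_ae (Eventually.of_forall gd_nonneg)
    gd_cont.aestronglyMeasurable, h1]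
  simp

/-- root of the shifted density -/
noncomputable def rr (c x : E n) : ℝ := √(gd n (x - c))

theorem rr_nonneg (c x : E n) : 0 ≤ rr c x := Real.sqrt_nonneg _

theorem rr_sq (c x : E n) : rr c x ^ 2 = gd n (x - c) := Real.sq_sqrt (gd_nonneg _)

theorem rr_cont (c : E n) : Continuous (rr c) :=
  Real.continuous_sqrt.comp (gd_cont.comp (continuous_id.sub continuous_const))

theorem rr_mul (c₁ c₂ x : E n) : rr c₁ x * rr c₂ x =
    gd n (x - (1 / 2 : ℝ) • (c₁ + c₂)) * Real.exp (-‖c₂ - c₁‖ ^ 2 / 8) := by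
  unfold rr
  rw [← Real.sqrt_mul (gd_nonneg _)]
  have h1 : gd n (x - c₁) * gd n (x - c₂) =
      (gd n (x - (1 / 2 : ℝ) • (c₁ + c₂)) * Real.exp (-‖c₂ - c₁‖ ^ 2 / 8)) ^ 2 := by
    unfold gd
    have hp : ‖x - c₁‖ ^ 2 + ‖x - c₂‖ ^ 2 =
        2 * ‖x - (1 / 2 : ℝ) • (c₁ + c₂)‖ ^ 2 + ‖c₂ - c₁‖ ^ 2 / 2 := by
      have h2 := parallelogram_law_with_norm ℝ (x - c₁) (x - c₂)
      have e1 : x - c₁ + (x - c₂) = (2 : ℝ) • (x - (1 / 2 : ℝ) • (c₁ + c₂)) := by
        rw [smul_sub, smul_smul]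
        norm_num
        rw [two_smul]
        abel
      have e2 : x - c₁ - (x - c₂) = c₂ - c₁ := by abel
      rw [e1, e2, norm_smul, Real.norm_eq_abs, abs_of_pos (by norm_num : (0 : ℝ) < 2)] at h2
      nlinarith
    have e3 : (√(2 * Real.pi))⁻¹ ^ n * Real.exp (-‖x - c₁‖ ^ 2 / 2) *
        ((√(2 * Real.pi))⁻¹ ^ n * Real.exp (-‖x - c₂‖ ^ 2 / 2)) =
        ((√(2 * Real.pi))⁻¹ ^ n) ^ 2 * Real.exp (-(‖x - c₁‖ ^ 2 + ‖x - c₂‖ ^ 2) / 2) := by
      have : -(‖x - c₁‖ ^ 2 + ‖x - c₂‖ ^ 2) / 2 = -‖x - c₁‖ ^ 2 / 2 + -‖x - c₂‖ ^ 2 / 2 := by ring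
      rw [this, Real.exp_add]
      ring
    rw [e3, hp, mul_pow, mul_pow, ← Real.exp_nat_mul, ← Real.exp_nat_mul, mul_assoc,
      ← Real.exp_add]
    congr 2
    push_cast
    ring
  rw [h1, Real.sqrt_sq (mul_nonneg (gd_nonneg _) (Real.exp_nonneg _))]

theorem main (hGM : GaussMoments) : Overlap := by
  intro n V K hV hK c₁ c₂ η₁ η₂
  obtain ⟨gi, g1⟩ := gd_int (n := n) hGM
  have hgi : ∀ c : E n, Integrable (fun x => gd n (x - c)) := fun c => gi.comp_sub_right c
  have hg1 : ∀ c : E n, ∫ x, gd n (x - c) = 1 := fun c => by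
    rw [integral_sub_right_eq_self (gd n) c, g1]
  -- the functions
  set ρ := Real.exp (-‖c₂ - c₁‖ ^ 2 / 8) with hρ
  set a := ‖η₂ - η₁‖ with ha
  have hr2 : ∀ c : E n, Integrable (fun x => rr c x ^ 2) := fun c => by
    simp only [rr_sq]
    exact hgi c
  have hr1 : ∀ c : E n, ∫ x, rr c x ^ 2 = 1 := fun c => by
    simp only [rr_sq]
    exact hg1 c
  have hrm : ∀ c : E n, AEStronglyMeasurable (rr c) volume := fun c =>
    (rr_cont c).aestronglyMeasurable
  set v : E n → E n → E n → ℝ := fun c η x => rr c x * ‖V x - η‖ with hv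
  have hv0 : ∀ c η x, 0 ≤ v c η x := fun c η x => mul_nonneg (rr_nonneg c x) (norm_nonneg _)
  have hvm : ∀ c η, AEStronglyMeasurable (v c η) volume := fun c η =>
    ((rr_cont c).measurable.mul (hV.sub_const η).norm).aestronglyMeasurable
  have hvi : ∀ c η, Integrable (fun x => v c η x ^ 2) := by
    intro c η
    refine ((hgi c).mul_const ((K + ‖η‖) ^ 2)).mono' ?_ (Eventually.of_forall fun x => ?_)
    · exact (((rr_cont c).measurable.mul (hV.sub_const η).norm).pow_const 2).aestronglyMeasurable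
    · rw [Real.norm_of_nonneg (sq_nonneg _), hv]
      simp only [mul_pow, rr_sq]
      refine mul_le_mul_of_nonneg_left ?_ (gd_nonneg _)
      refine pow_le_pow_left₀ (norm_nonneg _) ?_ 2
      exact (norm_sub_le _ _).trans (by linarith [hK x])
  have hvy : ∀ c η, ∫ x, v c η x ^ 2 = ∫ x, ‖V (x + c) - η‖ ^ 2 ∂(gam n) := by
    intro c η
    rw [int_shift (fun x => ‖V x - η‖ ^ 2) c]
    refine integral_congr_ae (Eventually.of_forall fun x => ?_)
    simp only [hv, mul_pow, rr_sq, smul_eq_mul]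
  rw [← hvy c₁ η₁, ← hvy c₂ η₂]
  set y₁ := √(∫ x, v c₁ η₁ x ^ 2) with hy₁
  set y₂ := √(∫ x, v c₂ η₂ x ^ 2) with hy₂
  have hrr : ∫ x, rr c₁ x * rr c₂ x = ρ := by
    simp only [rr_mul]
    rw [integral_mul_const, hg1, one_mul]
  have hrri : Integrable (fun x => rr c₁ x * rr c₂ x) := by
    simp only [rr_mul]
    exact (hgi _).mul_const _
  have htri : ∀ x, a ≤ ‖V x - η₁‖ + ‖V x - η₂‖ := by
    intro x
    have : η₂ - η₁ = (V x - η₁) - (V x - η₂) := by abel
    rw [ha, this]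
    exact norm_sub_le _ _
  refine ⟨?_, ?_⟩
  · obtain ⟨i1, l1⟩ := cs (hv0 c₁ η₁) (rr_nonneg c₂) (hvm c₁ η₁) (hrm c₂) (hvi c₁ η₁) (hr2 c₂)
    obtain ⟨i2, l2⟩ := cs (hv0 c₂ η₂) (rr_nonneg c₁) (hvm c₂ η₂) (hrm c₁) (hvi c₂ η₂) (hr2 c₁)
    rw [hr1, Real.sqrt_one, mul_one] at l1 l2
    have h1 : ∫ x, a * (rr c₁ x * rr c₂ x) ≤
        ∫ x, (v c₁ η₁ x * rr c₂ x + v c₂ η₂ x * rr c₁ x) := by
      refine integral_mono (hrri.const_mul a) (i1.add i2) fun x => ?_
      show a * (rr c₁ x * rr c₂ x) ≤ rr c₁ x * ‖V x - η₁‖ * rr c₂ x +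
        rr c₂ x * ‖V x - η₂‖ * rr c₁ x
      have h2 := mul_le_mul_of_nonneg_right (htri x)
        (mul_nonneg (rr_nonneg c₁ x) (rr_nonneg c₂ x))
      linarith
    rw [integral_const_mul, hrr, integral_add i1 i2] at h1
    linarith
  · -- the difference of the roots
    set d : E n → ℝ := fun x => |rr c₂ x - rr c₁ x| with hd
    have hd0 : ∀ x, 0 ≤ d x := fun x => abs_nonneg _
    have hdm : AEStronglyMeasurable d volume :=
      ((rr_cont c₂).sub (rr_cont c₁)).abs.aestronglyMeasurable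
    have hdsq : ∀ x, d x ^ 2 = rr c₂ x ^ 2 + rr c₁ x ^ 2 - 2 * (rr c₁ x * rr c₂ x) := by
      intro x
      rw [hd]
      simp only [sq_abs]
      ring
    have hdi : Integrable (fun x => d x ^ 2) := by
      simp only [hdsq]
      exact ((hr2 c₂).add (hr2 c₁)).sub (hrri.const_mul 2)
    have hdv : ∫ x, d x ^ 2 = 2 - 2 * ρ := by
      simp only [hdsq]
      have j1 : Integrable (fun x => rr c₂ x ^ 2 + rr c₁ x ^ 2) := (hr2 c₂).add (hr2 c₁)
      rw [integral_sub j1 (hrri.const_mul 2), integral_add (hr2 c₂) (hr2 c₁),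
        hr1, hr1, integral_const_mul, hrr]
      norm_num
    have hδ : √(∫ x, d x ^ 2) ≤ ‖c₂ - c₁‖ / 2 := by
      rw [hdv]
      refine Real.sqrt_le_iff.2 ⟨by positivity, ?_⟩
      have h1 := Real.add_one_le_exp (-‖c₂ - c₁‖ ^ 2 / 8)
      rw [← hρ] at h1
      nlinarith
    obtain ⟨i1, l1⟩ := cs hd0 (hv0 c₁ η₁) hdm (hvm c₁ η₁) hdi (hvi c₁ η₁)
    obtain ⟨i2, l2⟩ := cs hd0 (hv0 c₂ η₂) hdm (hvm c₂ η₂) hdi (hvi c₂ η₂)
    obtain ⟨i3, l3⟩ := cs hd0 (rr_nonneg c₁) hdm (hrm c₁) hdi (hr2 c₁)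
    obtain ⟨i4, l4⟩ := cs hd0 (rr_nonneg c₂) hdm (hrm c₂) hdi (hr2 c₂)
    rw [hr1, Real.sqrt_one, mul_one] at l3 l4
    have hVi : ∀ c : E n, Integrable (fun x => gd n (x - c) • V x) := by
      intro c
      refine ((hgi c).mul_const K).mono' ?_ (Eventually.of_forall fun x => ?_)
      · exact ((gd_cont.comp (continuous_id.sub continuous_const)).measurable.smul
          hV).aestronglyMeasurable
      · rw [norm_smul, Real.norm_of_nonneg (gd_nonneg _)]
        exact mul_le_mul_of_nonneg_left (hK x) (gd_nonneg _)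
    set m := (1 / 2 : ℝ) • (η₁ + η₂) with hm
    have hmi : ∀ c : E n, Integrable (fun x => gd n (x - c) • m) := fun c =>
      (hgi c).smul_const m
    have e1 : (∫ x, V (x + c₂) ∂(gam n)) - ∫ x, V (x + c₁) ∂(gam n) =
        ∫ x, (gd n (x - c₂) - gd n (x - c₁)) • (V x - m) := by
      rw [int_shift, int_shift]
      have e2 : ∀ x, (gd n (x - c₂) - gd n (x - c₁)) • (V x - m) =
          (gd n (x - c₂) • V x - gd n (x - c₁) • V x) -
            (gd n (x - c₂) • m - gd n (x - c₁) • m) := by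
        intro x
        rw [sub_smul, smul_sub, smul_sub]
        abel
      simp only [e2]
      have j1 : Integrable (fun x => gd n (x - c₂) • V x - gd n (x - c₁) • V x) :=
        (hVi c₂).sub (hVi c₁)
      have j2 : Integrable (fun x => gd n (x - c₂) • m - gd n (x - c₁) • m) :=
        (hmi c₂).sub (hmi c₁)
      rw [integral_sub j1 j2,
        integral_sub (hVi c₂) (hVi c₁), integral_sub (hmi c₂) (hmi c₁), integral_smul_const,
        integral_smul_const, hg1, hg1, sub_self, sub_zero]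
    rw [e1]
    have h1 : ‖∫ x, (gd n (x - c₂) - gd n (x - c₁)) • (V x - m)‖ ≤
        ∫ x, ((d x * v c₁ η₁ x + d x * v c₂ η₂ x) +
          (a / 2) * (d x * rr c₁ x + d x * rr c₂ x)) := by
      refine norm_integral_le_of_norm_le ((i1.add i2).add ((i3.add i4).const_mul (a / 2)))
        (Eventually.of_forall fun x => ?_)
      rw [norm_smul, Real.norm_eq_abs]
      have e3 : gd n (x - c₂) - gd n (x - c₁) = (rr c₂ x - rr c₁ x) * (rr c₁ x + rr c₂ x) := by
        rw [← rr_sq, ← rr_sq]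
        ring
      rw [e3, abs_mul, abs_of_nonneg (add_nonneg (rr_nonneg c₁ x) (rr_nonneg c₂ x))]
      have q1 := rr_nonneg c₁ x
      have q2 := rr_nonneg c₂ x
      have t1 : ‖V x - m‖ ≤ (‖V x - η₁‖ + ‖V x - η₂‖) / 2 := by
        have : V x - m = (1 / 2 : ℝ) • ((V x - η₁) + (V x - η₂)) := by
          rw [hm, smul_add, smul_add, smul_sub, smul_sub]
          have h5 : V x = (1 / 2 : ℝ) • V x + (1 / 2 : ℝ) • V x := by
            rw [← add_smul]
            norm_num
          nth_rewrite 1 [h5]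
          abel
        rw [this, norm_smul]
        have := norm_add_le (V x - η₁) (V x - η₂)
        norm_num
        linarith
      have t2 : ‖V x - η₁‖ ≤ ‖V x - η₂‖ + a := by
        have : V x - η₁ = (V x - η₂) + (η₂ - η₁) := by abel
        rw [this]
        exact norm_add_le _ _
      have t3 : ‖V x - η₂‖ ≤ ‖V x - η₁‖ + a := by
        have : V x - η₂ = (V x - η₁) - (η₂ - η₁) := by abel
        rw [this]
        exact norm_sub_le _ _
      show d x * (rr c₁ x + rr c₂ x) * ‖V x - m‖ ≤ d x * (rr c₁ x * ‖V x - η₁‖) +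
        d x * (rr c₂ x * ‖V x - η₂‖) + a / 2 * (d x * rr c₁ x + d x * rr c₂ x)
      have t4 : (rr c₁ x + rr c₂ x) * ‖V x - m‖ ≤ rr c₁ x * ‖V x - η₁‖ +
          rr c₂ x * ‖V x - η₂‖ + a / 2 * (rr c₁ x + rr c₂ x) := by
        have u1 := mul_le_mul_of_nonneg_left t1 (add_nonneg q1 q2)
        have u2 := mul_le_mul_of_nonneg_left t2 q2
        have u3 := mul_le_mul_of_nonneg_left t3 q1
        nlinarith
      have t5 := mul_le_mul_of_nonneg_left t4 (hd0 x)
      linarith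
    refine h1.trans ?_
    have j1 : Integrable (fun x => d x * v c₁ η₁ x + d x * v c₂ η₂ x) := i1.add i2
    have j3 : Integrable (fun x => d x * rr c₁ x + d x * rr c₂ x) := i3.add i4
    have j2 : Integrable (fun x => a / 2 * (d x * rr c₁ x + d x * rr c₂ x)) :=
      j3.const_mul (a / 2)
    rw [integral_add j1 j2, integral_add i1 i2,
      integral_const_mul, integral_add i3 i4]
    have ha0 : 0 ≤ a := norm_nonneg _
    have hy1 : 0 ≤ y₁ := Real.sqrt_nonneg _
    have hy2 : 0 ≤ y₂ := Real.sqrt_nonneg _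
    have h2 : (∫ x, d x * v c₁ η₁ x) + (∫ x, d x * v c₂ η₂ x) +
        a / 2 * ((∫ x, d x * rr c₁ x) + ∫ x, d x * rr c₂ x) ≤
        √(∫ x, d x ^ 2) * (y₁ + y₂ + a) := by
      have u := mul_le_mul_of_nonneg_left (add_le_add l3 l4) (by linarith : 0 ≤ a / 2)
      nlinarith
    exact h2.trans (mul_le_mul_of_nonneg_right hδ (by linarith))

end Pool.Agent.W293.FV.OV
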